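import Pool.Agent.Lib.MP_2e793b_nt.Iface

/-!
MP_2e793b_nt, module SERP: sum over the blocks.
-/

set_option autoImplicit false

namespace Pool.Agent.Lib.MP_2e793b_nt.H16

open Finset Filter

theorem val_nil (b : ℕ) : val b [] = 0 := rfl

theorem val_cons (b : ℕ) (d : ℤ) (v : List ℤ) : val b (d :: v) = ((d : ℝ) + val b v) / b := rfl

theorem val_append (b : ℕ) (hb : 2 ≤ b) (u v : List ℤ) :
    val b (u ++ v) = val b u + val b v / (b : ℝ) ^ u.length := by
  have hb0 : (b : ℝ) ≠ 0 := by positivity
  induction u with
  | nil => rw [List.nil_append, val_nil, List.length_nil, pow_zero, div_one, zero_add]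
  | cons d u ih =>
    rw [List.cons_append, val_cons, val_cons, ih, List.length_cons, pow_succ]
    field_simp
    ring

theorem val_range (b : ℕ) (hb : 2 ≤ b) (d : ℕ → ℤ) (L : ℕ) :
    val b ((List.range L).map d) = ∑ n ∈ Finset.range L, (d n : ℝ) / (b : ℝ) ^ (n + 1) := by
  have hb0 : (b : ℝ) ≠ 0 := by positivity
  induction L with
  | zero => rfl
  | succ L ih =>
    rw [List.range_succ, List.map_append, val_append b hb, ih, Finset.sum_range_succ,
      List.length_map, List.length_range, List.map_cons, List.map_nil, val_cons, val_nil,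
      add_zero, div_div, pow_succ, mul_comm (b : ℝ)]

theorem val_nonneg (b : ℕ) (v : List ℤ) (h : ∀ x ∈ v, 0 ≤ x) : 0 ≤ val b v := by
  induction v with
  | nil => exact le_of_eq (val_nil b).symm
  | cons d v ih =>
    rw [val_cons]
    have h1 : (0 : ℝ) ≤ (d : ℝ) := by exact_mod_cast h d (List.mem_cons_self ..)
    have h2 := ih (fun x hx => h x (List.mem_cons_of_mem _ hx))
    positivity

theorem blk_length {α : Type} (zy : List (List α × List α)) (m : ℕ) :
    (blk zy m).length = len1 zy + len2 zy * m := by
  unfold blk len1 len2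
  induction zy with
  | nil => simp
  | cons q zy ih =>
    rw [List.flatMap_cons, List.length_append, ih]
    simp only [List.length_append, List.length_flatten, List.map_replicate, List.sum_replicate,
      List.map_cons, List.sum_cons, smul_eq_mul]
    ring

theorem nf_succ {α : Type} (z0 : List α) (zy : List (List α × List α)) (M : ℕ) :
    nf z0 zy (M + 1) = nf z0 zy M ++ blk zy M := by
  unfold nf
  rw [List.range_succ, List.flatMap_append, List.append_assoc]
  simp

theorem nf_zero {α : Type} (z0 : List α) (zy : List (List α × List α)) : nf z0 zy 0 = z0 := by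
  unfold nf
  simp

theorem nf_length {α : Type} (z0 : List α) (zy : List (List α × List α)) (M : ℕ) :
    (nf z0 zy M).length = z0.length + (len1 zy * M + len2 zy * (M * (M - 1) / 2)) := by
  induction M with
  | zero => rw [nf_zero]; simp
  | succ M ih =>
    rw [nf_succ, List.length_append, ih, blk_length, Nat.triangle_succ]
    ring

theorem val_nf (b : ℕ) (hb : 2 ≤ b) (z0 : List ℤ) (zy : List (List ℤ × List ℤ)) (M : ℕ) :
    val b (nf z0 zy M) = val b z0 + ∑ m ∈ Finset.range M, val b (blk zy m) /
      (b : ℝ) ^ (z0.length + (len1 zy * m + len2 zy * (m * (m - 1) / 2))) := by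
  induction M with
  | zero => rw [nf_zero]; simp
  | succ M ih => rw [nf_succ, val_append b hb, ih, Finset.sum_range_succ, nf_length, add_assoc]

theorem nf_prefix (z0 : List ℤ) (zy : List (List ℤ × List ℤ)) (d : ℕ → ℤ)
    (h : ∀ (M i : ℕ) (x : ℤ), (nf z0 zy M)[i]? = some x → d i = x) (M : ℕ) :
    nf z0 zy M = (List.range (nf z0 zy M).length).map d := by
  apply List.ext_getElem
  · rw [List.length_map, List.length_range]
  · intro i h1 h2
    rw [List.getElem_map, List.getElem_range]
    exact (h M i _ (List.getElem?_eq_getElem h1)).symm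

theorem serp : SerpStmt := by
  intro b z0 zy d hb hd hpre hlen
  have hb0 : (0 : ℝ) < b := by positivity
  have hb1 : (1 : ℝ) < b := by exact_mod_cast (by omega : 1 < b)
  -- the digits are summable
  have hsum : Summable (fun n : ℕ => (d n : ℝ) / (b : ℝ) ^ (n + 1)) := by
    have hg : Summable (fun n : ℕ => ((b : ℝ)⁻¹) ^ n) :=
      summable_geometric_of_lt_one (by positivity) (inv_lt_one_of_one_lt₀ hb1)
    refine Summable.of_nonneg_of_le ?_ ?_ hg
    · intro n
      have : (0 : ℝ) ≤ (d n : ℝ) := by exact_mod_cast (hd n).1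
      positivity
    · intro n
      have h1 : (d n : ℝ) ≤ b := by exact_mod_cast (hd n).2.le
      rw [pow_succ, inv_pow, div_le_iff₀ (by positivity)]
      have h2 : ((b : ℝ) ^ n)⁻¹ * ((b : ℝ) ^ n * b) = b := by
        field_simp
      rw [h2]
      exact h1
  have hnn : ∀ m : ℕ, 0 ≤ val b (blk zy m) /
      (b : ℝ) ^ (z0.length + (len1 zy * m + len2 zy * (m * (m - 1) / 2))) := by
    intro m
    apply div_nonneg _ (by positivity)
    apply val_nonneg
    intro x hx
    have hx' : x ∈ nf z0 zy (m + 1) := by
      rw [nf_succ]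
      exact List.mem_append_right _ hx
    obtain ⟨i, hi, hxi⟩ := List.getElem_of_mem hx'
    have h1 := hpre (m + 1) i x (by rw [List.getElem?_eq_getElem hi, hxi])
    rw [← h1]
    exact (hd i).1
  rw [hasSum_iff_tendsto_nat_of_nonneg hnn]
  have hpart : ∀ M : ℕ, ∑ m ∈ Finset.range M, val b (blk zy m) /
      (b : ℝ) ^ (z0.length + (len1 zy * m + len2 zy * (m * (m - 1) / 2))) =
      (∑ n ∈ Finset.range (nf z0 zy M).length, (d n : ℝ) / (b : ℝ) ^ (n + 1)) - val b z0 := by
    intro M
    have h1 := val_nf b hb z0 zy M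
    have h2 : val b (nf z0 zy M) =
        ∑ n ∈ Finset.range (nf z0 zy M).length, (d n : ℝ) / (b : ℝ) ^ (n + 1) := by
      conv_lhs => rw [nf_prefix z0 zy d hpre M]
      exact val_range b hb d _
    rw [← h2, h1]
    ring
  have hL : Tendsto (fun M : ℕ => (nf z0 zy M).length) atTop atTop := by
    have hM : ∀ M : ℕ, M - 1 ≤ (nf z0 zy M).length := by
      intro M
      rw [nf_length]
      rcases Nat.eq_zero_or_pos (len1 zy) with h0 | h0
      · have h2 : 1 ≤ len2 zy := by omega
        have h3 : M - 1 ≤ M * (M - 1) / 2 := by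
          rw [Nat.le_div_iff_mul_le (by norm_num)]
          rcases M with _ | _ | M
          · simp
          · simp
          · have : M + 1 + 1 - 1 = M + 1 := by omega
            rw [this]
            nlinarith
        have h4 : 1 * (M * (M - 1) / 2) ≤ len2 zy * (M * (M - 1) / 2) := Nat.mul_le_mul_right _ h2
        omega
      · have h4 : 1 * M ≤ len1 zy * M := Nat.mul_le_mul_right _ h0
        omega
    exact tendsto_atTop_mono hM (tendsto_sub_atTop_nat 1)
  have hlim := (hsum.hasSum.tendsto_sum_nat.comp hL).sub_const (val b z0)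
  refine hlim.congr ?_
  intro M
  rw [hpart M]
  rfl

end Pool.Agent.Lib.MP_2e793b_nt.H16
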